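import Pool.Agent.Y851.DK.F2
import Pool.Agent.Y851.DK.E1

/-! Correlations for families of kernels. -/

set_option autoImplicit false

namespace Pool.Agent.Y851.JM

open Finset
open Pool.Agent.Y851.PS Pool.Agent.Y851.DK

theorem simulF (α β : Type) (n : ℕ) : ∀ M δ : ℝ, 1 ≤ M → 0 < δ → ∃ Λ δ₂ : ℝ, 1 ≤ Λ ∧ 0 < δ₂ ∧
    ∀ (A : Finset α) (C : Finset β) (W : Fin n → α → β → ℝ), (∀ j, ∀ a ∈ A, ∀ c ∈ C, 0 ≤ W j a c) → (∀ j, Cut A C (W j) δ₂) →
    (∀ j, ∑ a ∈ A, ∑ c ∈ C, W j a c ^ 2 ≤ M * (A.card * C.card)) →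
    ∃ u : (Fin n → β) → α → ℝ, (∀ y ∈ Fintype.piFinset (fun _ : Fin n => C), ∀ a ∈ A,
      0 ≤ u y a ∧ u y a ≤ Λ ∧ u y a ≤ ∏ j, W j a (y j)) ∧
    ∑ y ∈ Fintype.piFinset (fun _ : Fin n => C), |∑ a ∈ A, u y a - A.card| ≤ δ * (A.card * (C.card : ℝ) ^ n) := by
  induction n with
  | zero =>
    intro M δ hM hδ
    refine ⟨1, 1, le_rfl, one_pos, fun A C W hW hcut hM2 => ⟨fun _ _ => 1, fun y _ a _ => ⟨zero_le_one, le_rfl, by simp⟩, ?_⟩⟩
    simp only [sum_const, nsmul_eq_mul, mul_one, sub_self, abs_zero, mul_zero]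
    positivity
  | succ n ih =>
    intro M δ hM hδ
    obtain ⟨Λ, δ₂, hΛ, hδ₂, h⟩ := ih M (δ / 2) hM (half_pos hδ)
    have hΛ0 : 0 < Λ := by linarith only [hΛ]
    have hM0 : 0 < M := by linarith only [hM]
    obtain ⟨L, hL⟩ : ∃ L, L = 4 * Λ * M / δ + 1 := ⟨_, rfl⟩
    have hL1 : 1 ≤ L := by
      have : 0 ≤ 4 * Λ * M / δ := by positivity
      linarith only [hL, this]
    have hL0 : 0 < L := by linarith only [hL1]
    have hLM : Λ * M / L ≤ δ / 4 := by
      rw [div_le_iff₀ hL0, hL]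
      have : δ / 4 * (4 * Λ * M / δ + 1) = Λ * M + δ / 4 := by field_simp
      linarith only [this, hδ]
    refine ⟨Λ * L, min δ₂ (δ / (8 * Λ)), ?_, lt_min hδ₂ (by positivity), fun A C W hW hcut hM2 => ?_⟩
    · calc (1 : ℝ) = 1 * 1 := by norm_num
        _ ≤ Λ * L := mul_le_mul hΛ hL1 zero_le_one hΛ0.le
    have hAC : (0 : ℝ) ≤ (A.card : ℝ) * C.card := mul_nonneg (Nat.cast_nonneg _) (Nat.cast_nonneg _)
    have hcut2 : ∀ j : Fin n, Cut A C (W j.succ) δ₂ := fun j A' hA' C' hC' =>
      (hcut j.succ A' hA' C' hC').trans (mul_le_mul_of_nonneg_right (min_le_left _ _) hAC)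
    have hcut3 : Cut A C (W 0) (δ / (8 * Λ)) := fun A' hA' C' hC' => (hcut 0 A' hA' C' hC').trans (mul_le_mul_of_nonneg_right (min_le_right _ _) hAC)
    obtain ⟨u, hu1, hu2⟩ := h A C (fun j => W j.succ) (fun j => hW j.succ) hcut2 (fun j => hM2 j.succ)
    refine ⟨fun y a => u (Fin.tail y) a * min (W 0 a (y 0)) L, ?_, ?_⟩
    · intro y hy a ha
      rw [Fintype.mem_piFinset] at hy
      have hty : Fin.tail y ∈ Fintype.piFinset (fun _ : Fin n => C) := by
        rw [Fintype.mem_piFinset]; intro j; exact hy j.succ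
      obtain ⟨g1, g2, g3⟩ := hu1 _ hty a ha
      have hm0 : 0 ≤ min (W 0 a (y 0)) L := le_min (hW 0 a ha _ (hy 0)) hL0.le
      refine ⟨mul_nonneg g1 hm0, mul_le_mul g2 (min_le_right _ _) hm0 hΛ0.le, ?_⟩
      rw [Fin.prod_univ_succ, mul_comm (W 0 a (y 0))]
      apply mul_le_mul g3 (min_le_left _ _) hm0
      exact prod_nonneg fun j _ => hW j.succ a ha _ (hy j.succ)
    · rw [PS.sum_cons]
      have key : ∀ y ∈ Fintype.piFinset (fun _ : Fin n => C), ∑ c ∈ C, |∑ a ∈ A, u (Fin.tail (Fin.cons c y : Fin (n + 1) → β)) a *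
          min (W 0 a ((Fin.cons c y : Fin (n + 1) → β) 0)) L - A.card| ≤
          δ / 2 * (A.card * C.card) + C.card * |∑ a ∈ A, u y a - A.card| := by
        intro y hy
        have e : ∀ c ∈ C, |∑ a ∈ A, u (Fin.tail (Fin.cons c y : Fin (n + 1) → β)) a *
          min (W 0 a ((Fin.cons c y : Fin (n + 1) → β) 0)) L - A.card| ≤
            |∑ a ∈ A, u y a * (W 0 a c - 1)| + ∑ a ∈ A, Λ * (W 0 a c ^ 2 / L) + |∑ a ∈ A, u y a - A.card| := by
          intro c hc
          simp only [Fin.tail_cons, Fin.cons_zero]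
          have e1 : ∑ a ∈ A, u y a * min (W 0 a c) L - A.card = ∑ a ∈ A, u y a * (W 0 a c - 1) - ∑ a ∈ A, u y a * (W 0 a c - min (W 0 a c) L) +
              (∑ a ∈ A, u y a - A.card) := by
            rw [← sum_sub_distrib]
            have : ∑ a ∈ A, (u y a * (W 0 a c - 1) - u y a * (W 0 a c - min (W 0 a c) L)) + ∑ a ∈ A, u y a = ∑ a ∈ A, u y a * min (W 0 a c) L := by
              rw [← sum_add_distrib]
              exact sum_congr rfl fun a _ => by ring
            linarith only [this]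
          have e2 : 0 ≤ ∑ a ∈ A, u y a * (W 0 a c - min (W 0 a c) L) :=
            sum_nonneg fun a ha => mul_nonneg (hu1 y hy a ha).1 (sub_nonneg.2 (min_le_left _ _))
          have e3 : ∑ a ∈ A, u y a * (W 0 a c - min (W 0 a c) L) ≤ ∑ a ∈ A, Λ * (W 0 a c ^ 2 / L) := by
            apply sum_le_sum
            intro a ha
            have hw := hW 0 a ha c hc
            have h2 : W 0 a c - min (W 0 a c) L ≤ W 0 a c ^ 2 / L := by
              by_cases hWL : W 0 a c ≤ L
              · rw [min_eq_left hWL, sub_self]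
                positivity
              · push Not at hWL
                rw [min_eq_right hWL.le, le_div_iff₀ hL0]
                have h3 : W 0 a c * L ≤ W 0 a c * W 0 a c := mul_le_mul_of_nonneg_left hWL.le hw
                have h4 : 0 ≤ L * L := mul_nonneg hL0.le hL0.le
                have h5 : (W 0 a c - L) * L = W 0 a c * L - L * L := by ring
                have h6 : W 0 a c ^ 2 = W 0 a c * W 0 a c := by ring
                rw [h5, h6]
                linarith only [h3, h4]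
            exact mul_le_mul (hu1 y hy a ha).2.1 h2 (sub_nonneg.2 (min_le_left _ _)) hΛ0.le
          rw [e1]
          refine (abs_add_le _ _).trans ?_
          have h5 := abs_sub (∑ a ∈ A, u y a * (W 0 a c - 1)) (∑ a ∈ A, u y a * (W 0 a c - min (W 0 a c) L))
          rw [abs_of_nonneg e2] at h5
          linarith only [h5, e3]
        refine (sum_le_sum e).trans ?_
        rw [sum_add_distrib, sum_add_distrib, sum_const, nsmul_eq_mul]
        have h1 := cut_abs hcut3 (u y) Λ hΛ0.le (fun a ha => (hu1 y hy a ha).1) (fun a ha => (hu1 y hy a ha).2.1)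
        have h2 : ∑ c ∈ C, ∑ a ∈ A, Λ * (W 0 a c ^ 2 / L) ≤ δ / 4 * (A.card * C.card) := by
          rw [sum_comm]
          have h3 : ∑ a ∈ A, ∑ c ∈ C, Λ * (W 0 a c ^ 2 / L) = Λ / L * ∑ a ∈ A, ∑ c ∈ C, W 0 a c ^ 2 := by
            rw [mul_sum]
            apply sum_congr rfl
            intro a _
            rw [mul_sum]
            apply sum_congr rfl
            intro c _
            ring
          rw [h3]
          calc Λ / L * ∑ a ∈ A, ∑ c ∈ C, W 0 a c ^ 2 ≤ Λ / L * (M * (A.card * C.card)) :=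
                mul_le_mul_of_nonneg_left (hM2 0) (by positivity)
            _ = (Λ * M / L) * (A.card * C.card) := by ring
            _ ≤ δ / 4 * (A.card * C.card) := mul_le_mul_of_nonneg_right hLM hAC
        have h3 : 2 * Λ * (δ / (8 * Λ) * (A.card * C.card)) = δ / 4 * ((A.card : ℝ) * C.card) := by
          have e0 : 2 * Λ * (δ / (8 * Λ)) = δ / 4 := by
            field_simp
            norm_num
          rw [← mul_assoc, e0]
        rw [h3] at h1
        linarith only [h1, h2]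
      refine (sum_le_sum key).trans ?_
      rw [sum_add_distrib, sum_const, nsmul_eq_mul, ← mul_sum, Fintype.card_piFinset, prod_const, Finset.card_univ, Fintype.card_fin]
      push_cast
      have h4 : (C.card : ℝ) * ∑ y ∈ Fintype.piFinset (fun _ : Fin n => C), |∑ a ∈ A, u y a - A.card| ≤
          C.card * (δ / 2 * (A.card * (C.card : ℝ) ^ n)) := mul_le_mul_of_nonneg_left hu2 (Nat.cast_nonneg _)
      have h5 : (C.card : ℝ) ^ n * (δ / 2 * (A.card * C.card)) + C.card * (δ / 2 * (A.card * (C.card : ℝ) ^ n)) =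
          δ * (A.card * (C.card : ℝ) ^ (n + 1)) := by ring
      linarith only [h4, h5]


end Pool.Agent.Y851.JM
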