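import Pool.Agent.Y851.JM.A1

/-! The upper bound for correlations on average over tuples, by exchange of summations. -/

set_option autoImplicit false

namespace Pool.Agent.Y851.JM

open Finset
open Pool.Agent.Y851.PS Pool.Agent.Y851.DK

lemma prod_le_sum_pow {n : ℕ} (hn : 1 ≤ n) (x : Fin n → ℝ) (hx : ∀ j, 0 ≤ x j) : ∏ j, x j ≤ ∑ j, x j ^ n := by
  have hne : (univ : Finset (Fin n)).Nonempty := ⟨⟨0, hn⟩, mem_univ _⟩
  obtain ⟨j0, -, hj0⟩ := exists_max_image univ x hne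
  have h1 : ∏ j, x j ≤ ∏ _j : Fin n, x j0 := prod_le_prod (fun j _ => hx j) (fun j _ => hj0 j (mem_univ _))
  rw [prod_const, Finset.card_univ, Fintype.card_fin] at h1
  refine h1.trans ?_
  exact single_le_sum (f := fun j => x j ^ n) (fun j _ => pow_nonneg (hx j) n) (mem_univ j0)

open Classical in
lemma prod_point {n : ℕ} (hn : 1 ≤ n) (x : Fin n → ℝ) (hx : ∀ j, 0 ≤ x j) (η L : ℝ) (hη : 0 ≤ η) (hL : 0 < L) :
    ∏ j, x j ≤ (1 + η) ^ n + ((∑ j, x j ^ (2 * n)) / L + (if ∀ j, x j ≤ 1 + η then 0 else n * L)) := by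
  have hs : 0 ≤ (∑ j, x j ^ (2 * n)) / L := div_nonneg (sum_nonneg fun j _ => pow_nonneg (hx j) _) hL.le
  split_ifs with h
  · have h1 : ∏ j, x j ≤ ∏ _j : Fin n, (1 + η) := prod_le_prod (fun j _ => hx j) (fun j _ => h j)
    rw [prod_const, Finset.card_univ, Fintype.card_fin] at h1
    linarith only [h1, hs]
  · have h1 : ∑ j, x j ^ n ≤ ∑ j, (x j ^ (2 * n) / L + L) := by
      apply sum_le_sum
      intro j _
      have h2 := le_sq_div (w := x j ^ n) hL
      rw [← pow_mul, mul_comm n 2] at h2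
      exact h2
    rw [sum_add_distrib, sum_const, Finset.card_univ, Fintype.card_fin, nsmul_eq_mul, ← sum_div] at h1
    have h2 := prod_le_sum_pow hn x hx
    have h3 : 0 ≤ (1 + η) ^ n := by positivity
    linarith only [h1, h2, h3]

open Classical in
theorem upp (α β : Type) (n : ℕ) (hn : 1 ≤ n) (M δ : ℝ) (hM : 1 ≤ M) (hδ : 0 < δ) : ∃ δ₂ : ℝ, 0 < δ₂ ∧
    ∀ (A : Finset α) (C : Finset β) (W : Fin n → α → β → ℝ), (∀ j, ∀ a ∈ A, ∀ c ∈ C, 0 ≤ W j a c) → (∀ j, Cut A C (W j) δ₂) →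
    (∀ j, ∑ a ∈ A, ∑ c ∈ C, W j a c ^ (2 * n) ≤ M * (A.card * C.card)) →
    ∑ y ∈ Fintype.piFinset (fun _ : Fin n => C), ∑ a ∈ A, ∏ j, W j a (y j) ≤ (1 + δ) * (A.card * (C.card : ℝ) ^ n) := by
  have hn0 : (0 : ℝ) < n := by exact_mod_cast hn
  have hM0 : 0 < M := by linarith only [hM]
  obtain ⟨L, hL⟩ : ∃ L, L = 3 * n * M / δ := ⟨_, rfl⟩
  have hL0 : 0 < L := by rw [hL]; positivity
  have hLM : n * M / L = δ / 3 := by rw [hL]; field_simp
  obtain ⟨η, hη⟩ : ∃ η, η = min (1 / (n : ℝ)) (min (δ / (6 * n)) (δ / (3 * n * (n * L)))) := ⟨_, rfl⟩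
  have hη0 : 0 < η := by
    rw [hη]
    exact lt_min (by positivity) (lt_min (by positivity) (by positivity))
  have hη1 : n * η ≤ 1 := by
    have : η ≤ 1 / (n : ℝ) := by rw [hη]; exact min_le_left _ _
    calc n * η ≤ n * (1 / (n : ℝ)) := mul_le_mul_of_nonneg_left this hn0.le
      _ = 1 := by field_simp
  have hη2 : n * η ≤ δ / 6 := by
    have : η ≤ δ / (6 * n) := by rw [hη]; exact (min_le_right _ _).trans (min_le_left _ _)
    calc n * η ≤ n * (δ / (6 * n)) := mul_le_mul_of_nonneg_left this hn0.le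
      _ = δ / 6 := by field_simp
  have hη3 : n * L * (n * η) ≤ δ / 3 := by
    have : η ≤ δ / (3 * n * (n * L)) := by rw [hη]; exact (min_le_right _ _).trans (min_le_right _ _)
    calc n * L * (n * η) ≤ n * L * (n * (δ / (3 * n * (n * L)))) := by gcongr
      _ = δ / 3 := by field_simp
  have hpow : (1 + η) ^ n ≤ 1 + δ / 3 := by
    have h1 : (1 + η) ^ n ≤ Real.exp (n * η) := by
      calc (1 + η) ^ n ≤ (Real.exp η) ^ n := pow_le_pow_left₀ (by positivity) (by linarith only [Real.add_one_le_exp η]) n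
        _ = Real.exp (n * η) := by rw [← Real.exp_nat_mul]
    have h2 : |Real.exp (n * η) - 1| ≤ 2 * |(n : ℝ) * η| := Real.abs_exp_sub_one_le (by
      rw [abs_of_nonneg (by positivity)]; exact hη1)
    rw [abs_of_nonneg (show (0 : ℝ) ≤ n * η by positivity)] at h2
    have h3 := (abs_le.1 h2).2
    linarith only [h1, h3, hη2]
  refine ⟨η ^ 2 / 2, by positivity, fun A C W hW hcut hM2 => ?_⟩
  by_cases hC0 : C.card = 0
  · have hC : C = ∅ := card_eq_zero.1 hC0
    have : Fintype.piFinset (fun _ : Fin n => C) = ∅ := by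
      rw [eq_empty_iff_forall_notMem]
      intro y hy
      rw [Fintype.mem_piFinset] at hy
      have := hy ⟨0, hn⟩
      rw [hC] at this
      exact absurd this (notMem_empty _)
    rw [this, sum_empty]
    positivity
  have hCp : (0 : ℝ) < C.card := by exact_mod_cast Nat.pos_of_ne_zero hC0
  obtain ⟨f, hf⟩ : ∃ f : Fin n → α → ℝ, f = fun j a => (∑ c ∈ C, W j a c) / C.card := ⟨_, rfl⟩
  have hf0 : ∀ a ∈ A, ∀ j, 0 ≤ f j a := fun a ha j => by
    rw [hf]; exact div_nonneg (sum_nonneg fun c hc => hW j a ha c hc) hCp.le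
  -- exchange
  have e1 : ∑ y ∈ Fintype.piFinset (fun _ : Fin n => C), ∑ a ∈ A, ∏ j, W j a (y j) = (C.card : ℝ) ^ n * ∑ a ∈ A, ∏ j, f j a := by
    rw [sum_comm, mul_sum]
    apply sum_congr rfl
    intro a _
    rw [← prod_univ_sum (fun _ : Fin n => C) (fun j c => W j a c)]
    rw [show (C.card : ℝ) ^ n = ∏ _j : Fin n, (C.card : ℝ) by rw [prod_const, Finset.card_univ, Fintype.card_fin], ← prod_mul_distrib]
    apply prod_congr rfl
    intro j _
    rw [hf]
    field_simp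
  -- moments of the means
  have e2 : ∀ j, ∑ a ∈ A, f j a ^ (2 * n) ≤ M * A.card := by
    intro j
    have h1 : ∀ a ∈ A, f j a ^ (2 * n) ≤ (∑ c ∈ C, W j a c ^ (2 * n)) / C.card := by
      intro a ha
      have h2 := pow_sum_div_card_le_sum_pow (s := C) (f := fun c => W j a c) (fun c hc => hW j a ha c hc) (2 * n - 1)
      rw [show 2 * n - 1 + 1 = 2 * n by omega] at h2
      rw [hf, div_pow, le_div_iff₀ hCp]
      refine le_trans (le_of_eq ?_) h2
      rw [show 2 * n = (2 * n - 1) + 1 by omega, pow_succ (C.card : ℝ)]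
      rw [show 2 * n - 1 + 1 - 1 = 2 * n - 1 by omega]
      field_simp
    refine (sum_le_sum h1).trans ?_
    rw [← sum_div, div_le_iff₀ hCp]
    refine (hM2 j).trans (le_of_eq ?_)
    ring
  -- few exceptions
  have e3 : ((A.filter (fun a => ¬ ∀ j, f j a ≤ 1 + η)).card : ℝ) ≤ n * (η * A.card) := by
    have h1 : A.filter (fun a => ¬ ∀ j, f j a ≤ 1 + η) ⊆ (univ : Finset (Fin n)).biUnion (fun j => A.filter
        (fun a => η * C.card < |∑ c ∈ C, W j a c - C.card|)) := by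
      intro a ha
      rw [mem_filter] at ha
      obtain ⟨ha1, ha2⟩ := ha
      push Not at ha2
      obtain ⟨j, hj⟩ := ha2
      rw [mem_biUnion]
      refine ⟨j, mem_univ _, ?_⟩
      rw [mem_filter]
      refine ⟨ha1, ?_⟩
      rw [hf, lt_div_iff₀ hCp] at hj
      have := le_abs_self (∑ c ∈ C, W j a c - C.card)
      linarith only [hj, this]
    have h2 : ((A.filter (fun a => ¬ ∀ j, f j a ≤ 1 + η)).card : ℝ) ≤ ∑ j : Fin n, ((A.filter
        (fun a => η * C.card < |∑ c ∈ C, W j a c - C.card|)).card : ℝ) := by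
      exact_mod_cast (card_le_card h1).trans card_biUnion_le
    refine h2.trans ?_
    have h3 : ∀ j ∈ (univ : Finset (Fin n)), ((A.filter (fun a => η * C.card < |∑ c ∈ C, W j a c - C.card|)).card : ℝ) ≤ η * A.card := by
      intro j _
      have h4 := (hcut j).swap.mean (δ := η) hη0 (by linarith only)
      convert h4
    refine (sum_le_sum h3).trans (le_of_eq ?_)
    rw [sum_const, Finset.card_univ, Fintype.card_fin, nsmul_eq_mul]
  -- the sum of the products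
  have e4 : ∑ a ∈ A, ∏ j, f j a ≤ (1 + δ) * A.card := by
    have h1 : ∀ a ∈ A, ∏ j, f j a ≤ (1 + η) ^ n + ((∑ j, f j a ^ (2 * n)) / L + (if ∀ j, f j a ≤ 1 + η then 0 else n * L)) :=
      fun a ha => prod_point hn (fun j => f j a) (hf0 a ha) η L hη0.le hL0
    refine (sum_le_sum h1).trans ?_
    rw [sum_add_distrib, sum_add_distrib, sum_const, nsmul_eq_mul, ← sum_div]
    have h2 : (∑ a ∈ A, ∑ j, f j a ^ (2 * n)) / L ≤ δ / 3 * A.card := by
      rw [sum_comm]
      have h3 : ∑ j, ∑ a ∈ A, f j a ^ (2 * n) ≤ n * (M * A.card) := by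
        refine (sum_le_sum fun j _ => e2 j).trans (le_of_eq ?_)
        rw [sum_const, Finset.card_univ, Fintype.card_fin, nsmul_eq_mul]
      calc (∑ j, ∑ a ∈ A, f j a ^ (2 * n)) / L ≤ (n * (M * A.card)) / L := div_le_div_of_nonneg_right h3 hL0.le
        _ = (n * M / L) * A.card := by ring
        _ = δ / 3 * A.card := by rw [hLM]
    have h4 : ∑ a ∈ A, (if ∀ j, f j a ≤ 1 + η then (0 : ℝ) else n * L) ≤ δ / 3 * A.card := by
      have h5 : ∑ a ∈ A, (if ∀ j, f j a ≤ 1 + η then (0 : ℝ) else n * L) =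
          n * L * ((A.filter (fun a => ¬ ∀ j, f j a ≤ 1 + η)).card : ℝ) := by
        rw [card_ind, mul_sum]
        apply sum_congr rfl
        intro a _
        by_cases h : ∀ j, f j a ≤ 1 + η
        · rw [if_pos h, if_neg (not_not.2 h), mul_zero]
        · rw [if_neg h, if_pos h, mul_one]
      rw [h5]
      calc n * L * ((A.filter (fun a => ¬ ∀ j, f j a ≤ 1 + η)).card : ℝ) ≤ n * L * (n * (η * A.card)) :=
            mul_le_mul_of_nonneg_left e3 (by positivity)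
        _ = (n * L * (n * η)) * A.card := by ring
        _ ≤ δ / 3 * A.card := mul_le_mul_of_nonneg_right hη3 (Nat.cast_nonneg _)
    have h6 : (A.card : ℝ) * (1 + η) ^ n ≤ A.card * (1 + δ / 3) := mul_le_mul_of_nonneg_left hpow (Nat.cast_nonneg _)
    linarith only [h2, h4, h6]
  rw [e1]
  calc (C.card : ℝ) ^ n * ∑ a ∈ A, ∏ j, f j a ≤ (C.card : ℝ) ^ n * ((1 + δ) * A.card) :=
        mul_le_mul_of_nonneg_left e4 (by positivity)
    _ = (1 + δ) * (A.card * (C.card : ℝ) ^ n) := by ring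

open Classical in
/-- **Correlations.** -/
theorem asym (α β : Type) (n : ℕ) (hn : 1 ≤ n) (M δ : ℝ) (hM : 1 ≤ M) (hδ : 0 < δ) : ∃ δ₂ : ℝ, 0 < δ₂ ∧
    ∀ (A : Finset α) (C : Finset β) (W : Fin n → α → β → ℝ), (∀ j, ∀ a ∈ A, ∀ c ∈ C, 0 ≤ W j a c) → (∀ j, Cut A C (W j) δ₂) →
    (∀ j, ∑ a ∈ A, ∑ c ∈ C, W j a c ^ 2 ≤ M * (A.card * C.card)) →
    (∀ j, ∑ a ∈ A, ∑ c ∈ C, W j a c ^ (2 * n) ≤ M * (A.card * C.card)) →
    (((Fintype.piFinset (fun _ : Fin n => C)).filter (fun y => ¬ |∑ a ∈ A, ∏ j, W j a (y j) - A.card| ≤ δ * A.card)).card : ℝ) ≤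
      δ * (C.card : ℝ) ^ n := by
  obtain ⟨d, hd⟩ : ∃ d, d = δ ^ 2 / 3 := ⟨_, rfl⟩
  have hd0 : 0 < d := by rw [hd]; positivity
  obtain ⟨Λ, δa, -, hδa, hlow⟩ := simulF α β n M d hM hd0
  obtain ⟨δb, hδb, hupp⟩ := upp α β n hn M d hM hd0
  refine ⟨min δa δb, lt_min hδa hδb, fun A C W hW hcut hM2 hM3 => ?_⟩
  obtain ⟨u, hu1, hu2⟩ := hlow A C W hW (fun j => Pool.Agent.Y851.PT.cut_mono (hcut j) (min_le_left _ _)) hM2
  have hU := hupp A C W hW (fun j => Pool.Agent.Y851.PT.cut_mono (hcut j) (min_le_right _ _)) hM3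
  obtain ⟨T, hT⟩ : ∃ T, T = Fintype.piFinset (fun _ : Fin n => C) := ⟨_, rfl⟩
  rw [← hT] at hu1 hu2 hU ⊢
  have hTc : (T.card : ℝ) = (C.card : ℝ) ^ n := by
    rw [hT, Fintype.card_piFinset, prod_const, Finset.card_univ, Fintype.card_fin]
    push_cast
    rfl
  obtain ⟨Z, hZ⟩ : ∃ Z : (Fin n → β) → ℝ, Z = fun y => ∑ a ∈ A, ∏ j, W j a (y j) := ⟨_, rfl⟩
  obtain ⟨U, hUd⟩ : ∃ U : (Fin n → β) → ℝ, U = fun y => ∑ a ∈ A, u y a := ⟨_, rfl⟩
  have hUZ : ∀ y ∈ T, U y ≤ Z y := fun y hy => by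
    rw [hUd, hZ]
    exact sum_le_sum fun a ha => (hu1 y hy a ha).2.2
  have h1 : ∑ y ∈ T, |U y - A.card| ≤ d * (A.card * (C.card : ℝ) ^ n) := by rw [hUd]; exact hu2
  have h2 : ∑ y ∈ T, Z y ≤ (1 + d) * (A.card * (C.card : ℝ) ^ n) := by rw [hZ]; exact hU
  have h3 : ∑ y ∈ T, |Z y - A.card| ≤ 3 * d * (A.card * (C.card : ℝ) ^ n) := by
    have g1 : ∀ y ∈ T, |Z y - A.card| ≤ (Z y - A.card) + 2 * |U y - A.card| := by
      intro y hy
      have k1 := hUZ y hy
      have k2 := neg_abs_le (U y - A.card)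
      have k3 := abs_nonneg (U y - A.card)
      rcases abs_cases (Z y - A.card) with ⟨k4, k5⟩ | ⟨k4, k5⟩
      · rw [k4]; linarith only [k3]
      · rw [k4]; linarith only [k1, k2]
    refine (sum_le_sum g1).trans ?_
    rw [sum_add_distrib, sum_sub_distrib, sum_const, nsmul_eq_mul, ← mul_sum, hTc]
    linarith only [h1, h2]
  by_cases hA0 : A.card = 0
  · rw [filter_eq_empty_iff.2]
    · simp only [card_empty, Nat.cast_zero]
      exact mul_nonneg hδ.le (pow_nonneg (Nat.cast_nonneg _) n)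
    · intro y _ h
      apply h
      rw [card_eq_zero.1 hA0]
      simp
  have hAp : (0 : ℝ) < A.card := by exact_mod_cast Nat.pos_of_ne_zero hA0
  have h4 : ((T.filter (fun y => ¬ |Z y - A.card| ≤ δ * A.card)).card : ℝ) * (δ * A.card) ≤ ∑ y ∈ T, |Z y - A.card| := by
    calc ((T.filter (fun y => ¬ |Z y - A.card| ≤ δ * A.card)).card : ℝ) * (δ * A.card) =
          ∑ y ∈ T.filter (fun y => ¬ |Z y - A.card| ≤ δ * A.card), δ * A.card := by rw [sum_const, nsmul_eq_mul]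
      _ ≤ ∑ y ∈ T.filter (fun y => ¬ |Z y - A.card| ≤ δ * A.card), |Z y - A.card| := by
          apply sum_le_sum
          intro y hy
          rw [mem_filter, not_le] at hy
          exact hy.2.le
      _ ≤ ∑ y ∈ T, |Z y - A.card| := sum_le_sum_of_subset_of_nonneg (filter_subset _ _) fun y _ _ => abs_nonneg _
  have h5 : ((T.filter (fun y => ¬ |Z y - A.card| ≤ δ * A.card)).card : ℝ) * (δ * A.card) ≤ (δ * (C.card : ℝ) ^ n) * (δ * A.card) := by
    refine h4.trans (h3.trans (le_of_eq ?_))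
    rw [hd]; ring
  have h6 := le_of_mul_le_mul_right h5 (mul_pos hδ hAp)
  rw [hZ] at h6
  exact h6

end Pool.Agent.Y851.JM
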