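import Mathlib

/-! Project JM (helper851): statements of the jobs. -/

set_option autoImplicit false

namespace Pool.Agent.Y851.JM

open Finset Filter

/-- the primes in `(m, m + J]` -/
def pwc (m J : ℕ) : ℕ := ((Ioc m (m + J)).filter Nat.Prime).card

/-- the primes in `(x - H, x)` -/
noncomputable def PN (H x : ℝ) : ℕ := ((Icc 1 ⌊x⌋₊).filter (fun p : ℕ => p.Prime ∧ x - H < p ∧ (p : ℝ) < x)).card

/-- JM-PM: power moments of the number of primes in short windows -/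
def P_PM : Prop := ∀ (m K : ℕ) (lam : ℝ), 0 < lam → ∃ C : ℝ, 1 ≤ C ∧ ∀ᶠ X : ℝ in atTop, ∀ H : ℝ, lam * Real.log X ≤ H →
  H ≤ Real.log X ^ K → ∀ J : ℕ, (J : ℝ) ≤ 4 * H → ∑ k ∈ Icc 1 ⌊X⌋₊, (pwc k J : ℝ) ^ m ≤ C * X * (H / Real.log X) ^ m

/-- JM-MM: moments over a spread set of dilations -/
def P_MM : Prop := ∀ (m K : ℕ) (lam κ : ℝ), 0 < lam → 0 < κ → ∃ C : ℝ, 1 ≤ C ∧ ∀ᶠ X : ℝ in atTop, ∀ B H θ : ℝ,
  lam * Real.log X ≤ H → H ≤ Real.log X ^ K → 0 ≤ B → ∀ Y : Finset ℝ, (∀ y ∈ Y, 0 < y ∧ y ≤ X ^ (1 - θ)) →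
  (∀ u L : ℝ, H / X ^ θ ≤ L → ((Y.filter (fun y => u ≤ y ∧ y ≤ u + L)).card : ℝ) ≤ 2 * B * L * X ^ (θ - 1) * Y.card) →
  ∀ a : ℕ, 1 ≤ a → κ * X ^ θ ≤ (a : ℝ) → (a : ℝ) ≤ X ^ θ →
  ∑ y ∈ Y, (PN H (a * y) : ℝ) ^ m ≤ C * B * (H / Real.log X) ^ m * Y.card

end Pool.Agent.Y851.JM
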