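import Pool.Agent.Y851.JM.A2
import Pool.Agent.Y851.JM.Stm
import Pool.Agent.Y851.PT.P12

/-! Correlations of the numbers of primes in windows, for dilates. -/

set_option autoImplicit false

namespace Pool.Agent.Y851.JM

open Finset Filter
open Pool.Agent.Y851.PS Pool.Agent.Y851.PT Pool.Agent.Y851.DK

lemma PH_card_le {H x : ℝ} (hx : 0 ≤ x) : (PH H x).card ≤ PN H x := by
  unfold PN
  apply card_le_card
  intro p hp
  rw [mem_PH hx] at hp
  rw [mem_filter, mem_Icc]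
  exact ⟨⟨hp.1.one_lt.le, Nat.le_floor hp.2.2.le⟩, hp⟩

/-- moments of the normalised numbers -/
lemma mom_ZH (hMM : P_MM) (m K : ℕ) (lam κ : ℝ) (hlam : 0 < lam) (hκ : 0 < κ) : ∃ C1 : ℝ, 1 ≤ C1 ∧ ∀ᶠ X : ℝ in atTop,
    ∀ B H θ : ℝ, lam * Real.log X ≤ H → H ≤ Real.log X ^ K → 0 ≤ B → ∀ C : Finset ℝ, SpH B H θ X C →
    ∀ a : ℕ, 1 ≤ a → κ * X ^ θ ≤ (a : ℝ) → (a : ℝ) ≤ X ^ θ → ∑ c ∈ C, ZH H (a * c) ^ m ≤ C1 * B * C.card := by
  obtain ⟨C1, hC1, hev⟩ := hMM m K lam κ hlam hκ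
  refine ⟨C1, hC1, ?_⟩
  filter_upwards [hev, eventually_gt_atTop (1 : ℝ)] with X h hX B H θ hH1 hH2 hB C hC a ha1 ha2 ha3
  have hX0 : 0 < X := by linarith only [hX]
  have hlog : 0 < Real.log X := Real.log_pos hX
  have hH0 : 0 < H := lt_of_lt_of_le (mul_pos hlam hlog) hH1
  have ha0 : (0 : ℝ) < a := by exact_mod_cast ha1
  have h1 := h B H θ hH1 hH2 hB C (fun y hy => ⟨hC.pos y hy, hC.le y hy⟩) (fun u L hL => by
    have := SpH.long hC hX hH0 hB u L hL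
    convert this) a ha1 ha2 ha3
  have h2 : ∀ c ∈ C, ZH H (a * c) ^ m ≤ (Real.log X / H) ^ m * (PN H (a * c) : ℝ) ^ m := by
    intro c hc
    rw [← mul_pow]
    apply pow_le_pow_left₀ (ZH_nonneg hH0.le _)
    have hc0 := hC.pos c hc
    have hx0 : (0 : ℝ) < a * c := mul_pos ha0 hc0
    have hxX : (a : ℝ) * c ≤ X := by
      calc (a : ℝ) * c ≤ X ^ θ * X ^ (1 - θ) := mul_le_mul ha3 (hC.le c hc) hc0.le (Real.rpow_nonneg hX0.le _)
        _ = X := by rw [← Real.rpow_add hX0]; norm_num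
    unfold ZH
    have g1 : Real.log (a * c) ≤ Real.log X := Real.log_le_log hx0 hxX
    have g2 : ((PH H (a * c)).card : ℝ) ≤ PN H (a * c) := by exact_mod_cast PH_card_le hx0.le
    calc ((PH H (a * c)).card : ℝ) * Real.log (a * c) / H ≤ ((PH H (a * c)).card : ℝ) * Real.log X / H := by
          apply div_le_div_of_nonneg_right _ hH0.le
          exact mul_le_mul_of_nonneg_left g1 (Nat.cast_nonneg _)
      _ ≤ (PN H (a * c) : ℝ) * Real.log X / H := by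
          apply div_le_div_of_nonneg_right _ hH0.le
          exact mul_le_mul_of_nonneg_right g2 hlog.le
      _ = Real.log X / H * PN H (a * c) := by ring
  refine (sum_le_sum h2).trans ?_
  rw [← mul_sum]
  calc (Real.log X / H) ^ m * ∑ c ∈ C, (PN H (a * c) : ℝ) ^ m ≤ (Real.log X / H) ^ m * (C1 * B * (H / Real.log X) ^ m * C.card) :=
        mul_le_mul_of_nonneg_left h1 (by positivity)
    _ = ((Real.log X / H) * (H / Real.log X)) ^ m * (C1 * B * C.card) := by rw [mul_pow]; ring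
    _ = C1 * B * C.card := by
        have : Real.log X / H * (H / Real.log X) = 1 := by field_simp
        rw [this, one_pow, one_mul]

open Classical in
/-- **Correlations.** -/
theorem corr (hMM : P_MM) (θ lam β δ B : ℝ) (K n : ℕ) (hn : 1 ≤ n) (hθ : 0 < θ) (hlam : 0 < lam) (hlam1 : lam ≤ 1) (hβ : 0 < β)
    (hδ : 0 < δ) (hB : 1 ≤ B) : ∀ᶠ X : ℝ in atTop, ∀ H : Fin n → ℝ, (∀ j, lam * Real.log X ≤ H j ∧ H j ≤ Real.log X ^ K) →
    ∀ (A : Finset ℕ) (C : Finset ℝ), Adm δ θ X A → (∀ a ∈ A, β * X ^ θ ≤ (a : ℝ)) → SpH B (Real.log X) θ X C →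
    (((Fintype.piFinset (fun _ : Fin n => C)).filter (fun y => ¬
      |∑ a ∈ A, ∏ j, ZH (H j) (a * y j) - A.card| ≤ δ * A.card)).card : ℝ) ≤ δ * (C.card : ℝ) ^ n ∧
    (((Fintype.piFinset (fun _ : Fin n => A)).filter (fun a => ¬
      |∑ y ∈ C, ∏ j, ZH (H j) (a j * y) - C.card| ≤ δ * C.card)).card : ℝ) ≤ δ * (A.card : ℝ) ^ n := by
  obtain ⟨B', hB'⟩ : ∃ B', B' = 2 * B / lam := ⟨_, rfl⟩
  have hB'1 : 1 ≤ B' := by
    rw [hB', le_div_iff₀ hlam]
    linarith only [hB, hlam1]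
  have hB'0 : 0 < B' := by linarith only [hB'1]
  obtain ⟨M₁, hM₁, hbase⟩ := base2 θ lam (1 / 2) δ B' β hθ hlam (by norm_num) hδ hB'1 hβ
  obtain ⟨C1, hC1, hmom⟩ := mom_ZH hMM (2 * n) K lam β hlam hβ
  obtain ⟨M, hM⟩ : ∃ M, M = max M₁ (C1 * B') := ⟨_, rfl⟩
  have hM1 : 1 ≤ M := by rw [hM]; exact hM₁.trans (le_max_left _ _)
  have hMa : M₁ ≤ M := by rw [hM]; exact le_max_left _ _
  have hMb : C1 * B' ≤ M := by rw [hM]; exact le_max_right _ _
  obtain ⟨δa, hδa, hga⟩ := asym ℕ ℝ n hn M δ hM1 hδ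
  obtain ⟨δb, hδb, hgb⟩ := asym ℝ ℕ n hn M δ hM1 hδ
  have hδ' : 0 < min δa δb := lt_min hδa hδb
  have hK : ∀ᶠ X : ℝ in atTop, Real.log X ^ K ≤ X ^ (1 - (1 / 2 : ℝ)) := by
    have h := (isLittleO_log_rpow_rpow_atTop (K : ℝ) (show (0 : ℝ) < 1 - 1 / 2 by norm_num)).bound one_pos
    filter_upwards [h, eventually_gt_atTop (1 : ℝ)] with X hX hX1
    have hlog : 0 < Real.log X := Real.log_pos hX1
    rw [one_mul, Real.norm_of_nonneg (by positivity), Real.norm_of_nonneg (by positivity), Real.rpow_natCast] at hX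
    exact hX
  filter_upwards [hbase _ hδ', hmom, hK, eventually_gt_atTop (1 : ℝ)] with X h1 h2 hK1 hX H hH A C hA hAβ hC
  have hX0 : 0 < X := by linarith only [hX]
  have hlog : 0 < Real.log X := Real.log_pos hX
  have hsp : ∀ j, SpH B' (H j) θ X C := fun j => by
    rw [hB']
    exact spread_up hC hX hlam hlam1 (by linarith only [hB]) (hH j).1
  have hfac : ∀ j, 0 < H j ∧ Cut A C (fun a c => ZH (H j) (a * c)) (min δa δb) ∧
      ∑ a ∈ A, ∑ c ∈ C, ZH (H j) (a * c) ^ 2 ≤ M₁ * (A.card * C.card) := fun j =>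
    h1 (H j) (hH j).1 ((hH j).2.trans hK1) A C hA hAβ (hsp j)
  have hZ0 : ∀ (j : Fin n) (x : ℝ), 0 ≤ ZH (H j) x := fun j x => ZH_nonneg (hfac j).1.le _
  have hAC : (0 : ℝ) ≤ (A.card : ℝ) * C.card := by positivity
  have hs2 : ∀ j, ∑ a ∈ A, ∑ c ∈ C, ZH (H j) (a * c) ^ 2 ≤ M * (A.card * C.card) := fun j =>
    (hfac j).2.2.trans (mul_le_mul_of_nonneg_right hMa hAC)
  have hs3 : ∀ j, ∑ a ∈ A, ∑ c ∈ C, ZH (H j) (a * c) ^ (2 * n) ≤ M * (A.card * C.card) := by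
    intro j
    have g1 : ∀ a ∈ A, ∑ c ∈ C, ZH (H j) (a * c) ^ (2 * n) ≤ C1 * B' * C.card := fun a ha =>
      h2 B' (H j) θ (hH j).1 (hH j).2 hB'0.le C (hsp j) a (hA.1 a ha).1 (hAβ a ha) (hA.1 a ha).2
    refine (sum_le_sum g1).trans ?_
    rw [sum_const, nsmul_eq_mul]
    calc (A.card : ℝ) * (C1 * B' * C.card) = (C1 * B') * (A.card * C.card) := by ring
      _ ≤ M * (A.card * C.card) := mul_le_mul_of_nonneg_right hMb hAC
  constructor
  · exact hga A C (fun j a c => ZH (H j) (a * c)) (fun j a _ c _ => hZ0 j _) (fun j => cut_mono (hfac j).2.1 (min_le_left _ _)) hs2 hs3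
  · exact hgb C A (fun j c a => ZH (H j) (a * c)) (fun j c _ a _ => hZ0 j _)
      (fun j => (cut_mono (hfac j).2.1 (min_le_right _ _)).swap)
      (fun j => by rw [sum_comm, mul_comm (C.card : ℝ)]; exact hs2 j)
      (fun j => by rw [sum_comm, mul_comm (C.card : ℝ)]; exact hs3 j)

end Pool.Agent.Y851.JM
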